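import Pool.Agent.H32.RK.TargetsA

/-!
# Board `hpk_modules`, row DUA: the dual of the ring of integers
-/

set_option autoImplicit false

open Finset NumberField Pool.Agent.H32.RQ Pool.Agent.H32.RK

namespace Pool.Agent.H33.RK

section dua

variable {K : Type} [Field K] [NumberField K]

omit [NumberField K] in
theorem dua_mul (a b : 𝓞 K) : ((a * b : 𝓞 K) : K) = (a : K) * (b : K) :=
  map_mul (algebraMap (𝓞 K) K) a b

theorem dua_int (a : 𝓞 K) : InD (a : K) := fun b =>
  ⟨Algebra.trace ℤ (𝓞 K) (a * b), by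
    rw [Algebra.coe_trace_int, dua_mul]⟩

theorem dua_den : ∃ n₀ : ℕ, 1 ≤ n₀ ∧ ∀ a : K, InD a → ∃ b : 𝓞 K, (n₀ : K) * a = b := by
  classical
  have : Algebra.IsAlgebraic ℤ K :=
    (IsFractionRing.comap_isAlgebraic_iff (A := ℤ) (K := ℚ) (C := K)).2 inferInstance
  obtain ⟨y, hy, hi⟩ := Algebra.IsAlgebraic.exists_integral_multiples ℤ
    (Finset.univ.image fun i => (integralBasis K).traceDual i)
  refine ⟨y.natAbs, Nat.one_le_iff_ne_zero.2 (Int.natAbs_ne_zero.2 hy), fun a ha => ?_⟩
  have h1 : a = ∑ i, (Algebra.trace ℚ K (a * integralBasis K i)) • (integralBasis K).traceDual i := by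
    conv_lhs => rw [← (integralBasis K).traceDual.sum_repr a]
    refine Finset.sum_congr rfl fun i _ => ?_
    rw [Module.Basis.traceDual_repr_apply, Algebra.traceForm_apply]
  have h2 : IsIntegral ℤ ((y : K) * a) := by
    rw [h1, Finset.mul_sum]
    refine IsIntegral.sum _ fun i _ => ?_
    obtain ⟨n, hn⟩ := ha (RingOfIntegers.basis K i)
    rw [integralBasis_apply, hn]
    have h3 := hi _ (Finset.mem_image_of_mem _ (Finset.mem_univ i))
    have h4 : (y : K) * ((n : ℚ) • (integralBasis K).traceDual i) =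
        n • (y • (integralBasis K).traceDual i) := by
      rw [zsmul_eq_mul, zsmul_eq_mul, Algebra.smul_def, map_intCast]
      ring
    rw [h4]
    exact h3.smul n
  have h5 : IsIntegral ℤ ((y.natAbs : K) * a) := by
    have h6 : ((y.natAbs : ℤ) : K) * a = (y.sign : K) * ((y : K) * a) := by
      rw [← mul_assoc, ← Int.cast_mul, Int.sign_mul_self, Int.natCast_natAbs]
    rw [← Int.cast_natCast (R := K) y.natAbs, h6, ← zsmul_eq_mul]
    exact h2.smul _
  exact ⟨⟨_, h5⟩, rfl⟩

/-- (DUA) the dual of the ring of integers is an `𝓞 K`-module with bounded denominators. -/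
theorem pf_DUA (K : Type) [Field K] [NumberField K] : T_DUA K := by
  refine ⟨fun a b ha hb c => ?_, fun a b ha hb c => ?_, fun a b hb c => ?_, dua_int, dua_den⟩
  · obtain ⟨n, hn⟩ := ha c
    obtain ⟨m, hm⟩ := hb c
    exact ⟨n + m, by rw [add_mul, map_add, hn, hm, Int.cast_add]⟩
  · obtain ⟨n, hn⟩ := ha c
    obtain ⟨m, hm⟩ := hb c
    exact ⟨n - m, by rw [sub_mul, map_sub, hn, hm, Int.cast_sub]⟩
  · obtain ⟨n, hn⟩ := hb (a * c)
    refine ⟨n, ?_⟩
    rw [← hn, dua_mul]
    congr 1
    ring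

end dua

end Pool.Agent.H33.RK
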