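import Pool.Agent.H32.RK.TargetsA

/-!
# Board `hpk_modules`, row NRM: norms and products over the places
-/

set_option autoImplicit false

open Finset NumberField Pool.Agent.H32.RQ Pool.Agent.H32.RK

namespace Pool.Agent.H33.RK

section nrm

variable {K : Type} [Field K] [NumberField K]

theorem nrm_nm (a : K) : nm a = |((Algebra.norm ℚ a : ℚ) : ℝ)| := by
  have h := InfinitePlace.prod_eq_abs_norm (K := K) a
  rw [nm, pm, h, Rat.cast_abs]

theorem nrm_span (a : 𝓞 K) : nm (a : K) = Ideal.absNorm (Ideal.span {a}) := by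
  rw [nrm_nm, ← Algebra.coe_norm_int, Ideal.absNorm_span_singleton, Rat.cast_intCast,
    Nat.cast_natAbs, Int.cast_abs]

theorem nrm_mem (𝔤 : Ideal (𝓞 K)) (a : 𝓞 K) (ha : a ∈ 𝔤) (h0 : a ≠ 0) :
    (Ideal.absNorm 𝔤 : ℝ) ≤ nm (a : K) := by
  rw [nrm_span]
  have h1 : Ideal.absNorm 𝔤 ∣ Ideal.absNorm (Ideal.span {a}) :=
    Ideal.absNorm_dvd_absNorm_of_le ((Ideal.span_singleton_le_iff_mem _).2 ha)
  have h2 : Ideal.absNorm (Ideal.span {a}) ≠ 0 := by
    rw [Ne, Ideal.absNorm_eq_zero_iff, Ideal.span_singleton_eq_bot]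
    exact h0
  exact_mod_cast Nat.le_of_dvd (Nat.pos_of_ne_zero h2) h1

/-- (NRM) norms and products over the places. -/
theorem pf_NRM (K : Type) [Field K] [NumberField K] : T_NRM K := by
  refine ⟨nrm_mem, nrm_span, fun a b => ?_, fun X => ?_, fun D E => ?_, fun D E hD hDE => ?_,
    fun D hD => ?_⟩
  · rw [nrm_nm, nrm_nm, nrm_nm, map_mul, Rat.cast_mul, abs_mul]
  · rw [pm, Finset.prod_pow_eq_pow_sum, InfinitePlace.sum_mult_eq]
  · simp only [pm, mul_pow, Finset.prod_mul_distrib]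
  · exact Finset.prod_le_prod (fun w _ => pow_nonneg (hD w) _)
      fun w _ => pow_le_pow_left₀ (hD w) (hDE w) _
  · exact Finset.prod_pos fun w _ => pow_pos (hD w) _

end nrm

end Pool.Agent.H33.RK
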