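import Pool.Agent.H92.RK.Targets

set_option autoImplicit false

/-!
Module CB1 of the board `rk_modules`.
-/

open MeasureTheory Set Filter Topology
open scoped ENNReal

namespace Pool.Agent.H33.RK

open Pool.Agent.H92.RK

theorem lin_eq (h : ℝ → ℝ) (hc : Continuous h) (h0 : ∀ θ, 0 ≤ h θ) (a b : ℝ) (hab : a ≤ b) :
    ∫⁻ θ in Ioo a b, ENNReal.ofReal (h θ) = ENNReal.ofReal (∫ θ in a..b, h θ) := by
  rw [intervalIntegral.integral_of_le hab, integral_Ioc_eq_integral_Ioo]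
  rw [ofReal_integral_eq_lintegral_ofReal]
  · exact (hc.integrableOn_Icc).mono_set Ioo_subset_Icc_self
  · exact ae_of_all _ h0

theorem lin_eq' (h : ℝ → ℝ) (hc : Continuous h) (a b : ℝ) (hab : a ≤ b)
    (h0 : ∀ θ ∈ Ioc a b, 0 ≤ h θ) :
    ∫⁻ θ in Ioc a b, ENNReal.ofReal (h θ) = ENNReal.ofReal (∫ θ in a..b, h θ) := by
  rw [intervalIntegral.integral_of_le hab]
  rw [ofReal_integral_eq_lintegral_ofReal]
  · exact (hc.integrableOn_Icc).mono_set Ioc_subset_Icc_self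
  · rw [EventuallyLE, ae_restrict_iff' measurableSet_Ioc]
    exact ae_of_all _ h0

theorem cs (f : ℝ → ℂ) (hf : Continuous f) :
    ‖∫ θ in (-Real.pi)..Real.pi, f θ‖ ^ 2 / (2 * Real.pi) ≤
      ∫ θ in (-Real.pi)..Real.pi, ‖f θ‖ ^ 2 := by
  have hpi := Real.pi_pos
  obtain ⟨a, ha⟩ : ∃ a, a = ∫ θ in (-Real.pi)..Real.pi, ‖f θ‖ := ⟨_, rfl⟩
  have h1 : ‖∫ θ in (-Real.pi)..Real.pi, f θ‖ ≤ a := by
    rw [ha]
    exact intervalIntegral.norm_integral_le_integral_norm (by linarith)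
  have h2 : ‖∫ θ in (-Real.pi)..Real.pi, f θ‖ ^ 2 ≤ a ^ 2 := pow_le_pow_left₀ (norm_nonneg _) h1 2
  have h3 : 0 ≤ ∫ θ in (-Real.pi)..Real.pi, (‖f θ‖ - a / (2 * Real.pi)) ^ 2 :=
    intervalIntegral.integral_nonneg (by linarith) fun _ _ => sq_nonneg _
  have h4 : ∫ θ in (-Real.pi)..Real.pi, (‖f θ‖ - a / (2 * Real.pi)) ^ 2 =
      (∫ θ in (-Real.pi)..Real.pi, ‖f θ‖ ^ 2) - 2 * (a / (2 * Real.pi)) * a +
        (a / (2 * Real.pi)) ^ 2 * (2 * Real.pi) := by
    have h5 : ∀ θ, (‖f θ‖ - a / (2 * Real.pi)) ^ 2 =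
        ‖f θ‖ ^ 2 - 2 * (a / (2 * Real.pi)) * ‖f θ‖ + (a / (2 * Real.pi)) ^ 2 := fun θ => by ring
    simp_rw [h5]
    rw [intervalIntegral.integral_add, intervalIntegral.integral_sub,
      intervalIntegral.integral_const_mul, intervalIntegral.integral_const, ← ha]
    · simp only [smul_eq_mul]
      ring
    · exact (hf.norm.pow 2).intervalIntegrable _ _
    · exact (hf.norm.const_mul _).intervalIntegrable _ _
    · exact ((hf.norm.pow 2).sub (hf.norm.const_mul _)).intervalIntegrable _ _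
    · exact intervalIntegrable_const
  rw [h4] at h3
  have h6 : 2 * (a / (2 * Real.pi)) * a - (a / (2 * Real.pi)) ^ 2 * (2 * Real.pi) =
      a ^ 2 / (2 * Real.pi) := by
    field_simp
    ring
  have h7 : ‖∫ θ in (-Real.pi)..Real.pi, f θ‖ ^ 2 / (2 * Real.pi) ≤ a ^ 2 / (2 * Real.pi) :=
    div_le_div_of_nonneg_right h2 (by positivity)
  linarith

theorem hasDeriv_int (W Wr : ℝ → ℝ → ℂ) (hW : Continuous (Function.uncurry W))
    (hWr : Continuous (Function.uncurry Wr))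
    (hd : ∀ r θ, HasDerivAt (fun s => W s θ) (Wr r θ) r) (r : ℝ) :
    HasDerivAt (fun r => ∫ θ in (-Real.pi)..Real.pi, W r θ)
      (∫ θ in (-Real.pi)..Real.pi, Wr r θ) r := by
  have hWc : ∀ r, Continuous (W r) := fun r => hW.comp (by fun_prop : Continuous fun θ => (r, θ))
  have hWrc : ∀ r, Continuous (Wr r) :=
    fun r => hWr.comp (by fun_prop : Continuous fun θ => (r, θ))
  have hpi := Real.pi_pos
  obtain ⟨C, hC⟩ := (isCompact_Icc.prod isCompact_Icc :
    IsCompact (Icc (r - 1) (r + 1) ×ˢ Icc (-Real.pi) Real.pi)).exists_bound_of_continuousOn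
    hWr.continuousOn
  refine (intervalIntegral.hasDerivAt_integral_of_dominated_loc_of_deriv_le
    (s := Ioo (r - 1) (r + 1)) (F' := Wr) (bound := fun _ => C)
    (Ioo_mem_nhds (by linarith) (by linarith)) ?_ ?_ ?_ ?_ ?_ ?_).2
  · exact Eventually.of_forall fun x => (hWc x).aestronglyMeasurable
  · exact (hWc r).intervalIntegrable _ _
  · exact (hWrc r).aestronglyMeasurable
  · refine ae_of_all _ fun t ht x hx => ?_
    rw [uIoc_of_le (by linarith)] at ht
    exact hC (x, t) ⟨Ioo_subset_Icc_self hx, Ioc_subset_Icc_self ht⟩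
  · exact intervalIntegrable_const
  · exact ae_of_all _ fun t _ x _ => hd x t

theorem pf_CB1 (hN3 : T_N3) (hFOU : T_FOU) : T_CB1 := by
  intro k Ω W Wr Wt hk hP hQ h1 h2
  have hpi := Real.pi_pos
  have hkpos : 0 < k := by omega
  have hWc : ∀ r, Continuous (W r) := fun r => hP.c0.comp (by fun_prop : Continuous fun θ => (r, θ))
  have hWrc : ∀ r, Continuous (Wr r) :=
    fun r => hP.cr.comp (by fun_prop : Continuous fun θ => (r, θ))
  have hWtc : ∀ r, Continuous (Wt r) :=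
    fun r => hP.ct.comp (by fun_prop : Continuous fun θ => (r, θ))
  -- the radial functions
  set b : ℝ → ℂ := fun r => ∫ θ in (-Real.pi)..Real.pi, W r θ with hb
  set b' : ℝ → ℂ := fun r => ∫ θ in (-Real.pi)..Real.pi, Wr r θ with hb'
  have hbc : Continuous b :=
    intervalIntegral.continuous_parametric_intervalIntegral_of_continuous' hP.c0 _ _
  have hbc' : Continuous b' :=
    intervalIntegral.continuous_parametric_intervalIntegral_of_continuous' hP.cr _ _
  set n : ℝ → ℝ := fun r => ∫ θ in (-Real.pi)..Real.pi, ‖W r θ‖ ^ 2 with hn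
  have hnc : Continuous n := by
    refine intervalIntegral.continuous_parametric_intervalIntegral_of_continuous' ?_ _ _
    exact hP.c0.norm.pow 2
  have hC1 : C1 b b' := ⟨fun r => hasDeriv_int W Wr hP.c0 hP.cr hP.dr r, hbc'⟩
  have hr2 : 0 ≤ r₂ := Real.sqrt_nonneg _
  have hN := hN3 b b' hC1 h1 h2
  -- pointwise lower bound
  have key : ∀ r ∈ Ioc (0 : ℝ) r₂,
      ENNReal.ofReal ((‖b' r‖ ^ 2 / (2 * Real.pi) +
        15 * (n r - ‖b r‖ ^ 2 / (2 * Real.pi))) * r) ≤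
      ∫⁻ θ in Ioo (-Real.pi) Real.pi,
        ENNReal.ofReal ((‖Wr r θ‖ ^ 2 + ‖Wt r θ‖ ^ 2 / r ^ 2) * r) := by
    intro r hr
    have hr0 : 0 < r := hr.1
    have hrs : r ^ 2 ≤ 19 / 10 := by
      have h3 : r ^ 2 ≤ r₂ ^ 2 := pow_le_pow_left₀ hr0.le hr.2 2
      rwa [r₂, Real.sq_sqrt (by norm_num)] at h3
    rw [lin_eq _ (by
      have := hWrc r
      have := hWtc r
      fun_prop) (fun θ => by positivity) _ _ (by linarith)]
    refine ENNReal.ofReal_le_ofReal ?_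
    have h3 : ∫ θ in (-Real.pi)..Real.pi, (‖Wr r θ‖ ^ 2 + ‖Wt r θ‖ ^ 2 / r ^ 2) * r =
        ((∫ θ in (-Real.pi)..Real.pi, ‖Wr r θ‖ ^ 2) +
          (∫ θ in (-Real.pi)..Real.pi, ‖Wt r θ‖ ^ 2) / r ^ 2) * r := by
      rw [intervalIntegral.integral_mul_const, intervalIntegral.integral_add,
        intervalIntegral.integral_div]
      · exact ((hWrc r).norm.pow 2).intervalIntegrable _ _
      · exact (((hWtc r).norm.pow 2).div_const _).intervalIntegrable _ _
    rw [h3]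
    refine mul_le_mul_of_nonneg_right ?_ hr0.le
    have h4 := cs (Wr r) (hWrc r)
    have h5 := cs (W r) (hWc r)
    have h6 := hFOU k 0 0 36 (W r) (Wt r) hkpos ⟨hP.dt r, hWtc r⟩ (hQ r) (by simp) (by
      intro m hm hne
      have h7 : (k : ℤ) ∣ m := by simpa using hm
      obtain ⟨d, hd⟩ := h7
      have hd0 : d ≠ 0 := by
        rintro rfl
        apply hne
        simpa using hd
      have hk' : (6 : ℤ) ≤ k := by exact_mod_cast hk
      have h5 : (36 : ℤ) ≤ m ^ 2 := by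
        rcases lt_or_gt_of_ne hd0 with h | h
        · have : (k : ℤ) * d ≤ -6 := by nlinarith
          nlinarith
        · have : 6 ≤ (k : ℤ) * d := by nlinarith
          nlinarith
      exact_mod_cast h5)
    have h7 : ∫ θ in (-Real.pi)..Real.pi,
        W r θ * Complex.exp (-(((0 : ℤ) : ℂ) * θ * Complex.I)) = b r := by
      simp [hb]
    rw [h7] at h6
    have h8 : 0 ≤ n r - ‖b r‖ ^ 2 / (2 * Real.pi) := by
      have : ‖b r‖ ^ 2 / (2 * Real.pi) ≤ n r := h5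
      linarith
    have h9 : 36 * (n r - ‖b r‖ ^ 2 / (2 * Real.pi)) ≤
        ∫ θ in (-Real.pi)..Real.pi, ‖Wt r θ‖ ^ 2 := by
      refine le_trans (le_of_eq ?_) h6
      simp only [hn, Int.cast_zero]
      ring
    have h10 : 15 * (n r - ‖b r‖ ^ 2 / (2 * Real.pi)) ≤
        (∫ θ in (-Real.pi)..Real.pi, ‖Wt r θ‖ ^ 2) / r ^ 2 := by
      rw [le_div_iff₀ (by positivity)]
      have : 15 * (n r - ‖b r‖ ^ 2 / (2 * Real.pi)) * r ^ 2 ≤
          15 * (n r - ‖b r‖ ^ 2 / (2 * Real.pi)) * (19 / 10) :=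
        mul_le_mul_of_nonneg_left hrs (by positivity)
      linarith
    have h11 : ‖b' r‖ ^ 2 / (2 * Real.pi) ≤ ∫ θ in (-Real.pi)..Real.pi, ‖Wr r θ‖ ^ 2 := h4
    linarith
  have hleft : ∫⁻ r in Ioc (0 : ℝ) r₂, ∫⁻ θ in Ioo (-Real.pi) Real.pi,
      ENNReal.ofReal (‖W r θ‖ ^ 2 * r) = ENNReal.ofReal (∫ r in (0 : ℝ)..r₂, n r * r) := by
    rw [← lin_eq' (fun r => n r * r) (hnc.mul continuous_id) 0 r₂ hr2 (fun r hr =>
      mul_nonneg (intervalIntegral.integral_nonneg (by linarith) fun _ _ => by positivity) hr.1.le)]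
    refine setLIntegral_congr_fun measurableSet_Ioc fun r hr => ?_
    have hr0 : 0 < r := hr.1
    rw [lin_eq _ (by
      have := hWc r
      fun_prop) (fun θ => by positivity) _ _ (by linarith),
      intervalIntegral.integral_mul_const]
  have hG : ∀ r ∈ Ioc (0 : ℝ) r₂, 0 ≤ (‖b' r‖ ^ 2 / (2 * Real.pi) +
        15 * (n r - ‖b r‖ ^ 2 / (2 * Real.pi))) * r := by
    intro r hr
    have h8 : 0 ≤ n r - ‖b r‖ ^ 2 / (2 * Real.pi) := by
      have : ‖b r‖ ^ 2 / (2 * Real.pi) ≤ n r := cs (W r) (hWc r)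
      linarith
    have := hr.1
    positivity
  have hGc : Continuous (fun r => (‖b' r‖ ^ 2 / (2 * Real.pi) +
        15 * (n r - ‖b r‖ ^ 2 / (2 * Real.pi))) * r) := by fun_prop
  calc 15 * ∫⁻ r in Ioc (0 : ℝ) r₂, ∫⁻ θ in Ioo (-Real.pi) Real.pi, ENNReal.ofReal (‖W r θ‖ ^ 2 * r)
      = ENNReal.ofReal (15 * ∫ r in (0 : ℝ)..r₂, n r * r) := by
        rw [hleft, ENNReal.ofReal_mul (by norm_num)]
        norm_num
    _ ≤ ENNReal.ofReal (∫ r in (0 : ℝ)..r₂, (‖b' r‖ ^ 2 / (2 * Real.pi) +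
        15 * (n r - ‖b r‖ ^ 2 / (2 * Real.pi))) * r) := by
        refine ENNReal.ofReal_le_ofReal ?_
        have h3 : ∫ r in (0 : ℝ)..r₂, (‖b' r‖ ^ 2 / (2 * Real.pi) +
            15 * (n r - ‖b r‖ ^ 2 / (2 * Real.pi))) * r =
            1 / (2 * Real.pi) * (∫ r in (0 : ℝ)..r₂, ‖b' r‖ ^ 2 * r) +
            15 * (∫ r in (0 : ℝ)..r₂, n r * r) -
            15 / (2 * Real.pi) * (∫ r in (0 : ℝ)..r₂, ‖b r‖ ^ 2 * r) := by
          rw [← intervalIntegral.integral_const_mul, ← intervalIntegral.integral_const_mul,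
            ← intervalIntegral.integral_const_mul, ← intervalIntegral.integral_add,
            ← intervalIntegral.integral_sub]
          · refine intervalIntegral.integral_congr fun r _ => ?_
            ring
          · exact Continuous.intervalIntegrable (by fun_prop) _ _
          · exact Continuous.intervalIntegrable (by fun_prop) _ _
          · exact Continuous.intervalIntegrable (by fun_prop) _ _
          · exact Continuous.intervalIntegrable (by fun_prop) _ _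
        rw [h3]
        have h4 : 0 ≤ 1 / (2 * Real.pi) * ((∫ r in (0 : ℝ)..r₂, ‖b' r‖ ^ 2 * r) -
            15 * ∫ r in (0 : ℝ)..r₂, ‖b r‖ ^ 2 * r) :=
          mul_nonneg (by positivity) (by linarith)
        have h5 : 1 / (2 * Real.pi) * ((∫ r in (0 : ℝ)..r₂, ‖b' r‖ ^ 2 * r) -
            15 * ∫ r in (0 : ℝ)..r₂, ‖b r‖ ^ 2 * r) =
            1 / (2 * Real.pi) * (∫ r in (0 : ℝ)..r₂, ‖b' r‖ ^ 2 * r) -
            15 / (2 * Real.pi) * (∫ r in (0 : ℝ)..r₂, ‖b r‖ ^ 2 * r) := by ring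
        linarith
    _ = ∫⁻ r in Ioc (0 : ℝ) r₂, ENNReal.ofReal ((‖b' r‖ ^ 2 / (2 * Real.pi) +
        15 * (n r - ‖b r‖ ^ 2 / (2 * Real.pi))) * r) := by
        rw [lin_eq' _ hGc 0 r₂ hr2 hG]
    _ ≤ _ := setLIntegral_mono' measurableSet_Ioc key

end Pool.Agent.H33.RK
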