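import Pool.Agent.H92.RK.Targets

set_option autoImplicit false

/-!
Module DFA of the board `rk_modules`.
-/

open MeasureTheory Set Filter Topology
open scoped ENNReal

namespace Pool.Agent.H33.RK

open Pool.Agent.H92.RK

/-- the coefficients -/
noncomputable def ec (k s g : ℕ) : ℂ :=
  Complex.exp (((-(2 * Real.pi * (s : ℝ) * (g : ℝ) / (k : ℝ)) : ℝ) : ℂ) * Complex.I)

/-- the component number `s` -/
noncomputable def cmp (k : ℕ) (U : ℝ → ℝ → ℂ) (s : ℕ) (r θ : ℝ) : ℂ :=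
  (1 / (k : ℂ)) * ∑ g ∈ Finset.range k, ec k s g * U r (θ + 2 * Real.pi * (g : ℝ) / (k : ℝ))

theorem cmp_cont (k : ℕ) (U : ℝ → ℝ → ℂ) (hU : Continuous (Function.uncurry U)) (s : ℕ) :
    Continuous (Function.uncurry (cmp k U s)) := by
  have h1 : ∀ g : ℕ, Continuous fun p : ℝ × ℝ => U p.1 (p.2 + 2 * Real.pi * (g : ℝ) / (k : ℝ)) :=
    fun g => hU.comp (by fun_prop :
      Continuous fun p : ℝ × ℝ => (p.1, p.2 + 2 * Real.pi * (g : ℝ) / (k : ℝ)))
  change Continuous fun p : ℝ × ℝ => (1 / (k : ℂ)) * ∑ g ∈ Finset.range k,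
    ec k s g * U p.1 (p.2 + 2 * Real.pi * (g : ℝ) / (k : ℝ))
  exact continuous_const.mul (continuous_finsetSum _ fun g _ => continuous_const.mul (h1 g))

theorem cmp_per (k : ℕ) (U : ℝ → ℝ → ℂ) (hU : ∀ r θ, U r (θ + 2 * Real.pi) = U r θ) (s : ℕ)
    (r θ : ℝ) : cmp k U s r (θ + 2 * Real.pi) = cmp k U s r θ := by
  unfold cmp
  congr 1
  refine Finset.sum_congr rfl fun g _ => ?_
  have : θ + 2 * Real.pi + 2 * Real.pi * (g : ℝ) / (k : ℝ) =
      (θ + 2 * Real.pi * (g : ℝ) / (k : ℝ)) + 2 * Real.pi := by ring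
  rw [this, hU]

theorem ec_zero (k s : ℕ) : ec k s 0 = 1 := by simp [ec]

theorem ec_k (k s : ℕ) (hk : 0 < k) : ec k s k = 1 := by
  have hk' : (k : ℝ) ≠ 0 := by positivity
  unfold ec
  rw [Complex.exp_eq_one_iff]
  refine ⟨-(s : ℤ), ?_⟩
  have : 2 * Real.pi * (s : ℝ) * (k : ℝ) / (k : ℝ) = 2 * Real.pi * s := by field_simp
  rw [this]
  push_cast
  ring

theorem ec_succ (k s g : ℕ) : Complex.exp (((2 * Real.pi * ((s : ℤ) : ℝ) / (k : ℝ) : ℝ) : ℂ) *
    Complex.I) * ec k s (g + 1) = ec k s g := by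
  unfold ec
  rw [← Complex.exp_add]
  congr 1
  push_cast
  ring

theorem cmp_qp (k : ℕ) (hk : 0 < k) (U : ℝ → ℝ → ℂ) (hU : ∀ r θ, U r (θ + 2 * Real.pi) = U r θ)
    (s : ℕ) : QP k (s : ℤ) (cmp k U s) := by
  intro r θ
  have hk' : (k : ℝ) ≠ 0 := by positivity
  obtain ⟨w, hw⟩ : ∃ w, w = Complex.exp (((2 * Real.pi * ((s : ℤ) : ℝ) / (k : ℝ) : ℝ) : ℂ) *
    Complex.I) := ⟨_, rfl⟩
  rw [← hw]
  have h1 : cmp k U s r (θ + 2 * Real.pi / k) = (1 / (k : ℂ)) * ∑ g ∈ Finset.range k,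
      w * (ec k s (g + 1) * U r (θ + 2 * Real.pi * ((g + 1 : ℕ) : ℝ) / (k : ℝ))) := by
    unfold cmp
    congr 1
    refine Finset.sum_congr rfl fun g _ => ?_
    rw [← mul_assoc, hw, ec_succ]
    congr 2
    push_cast
    ring
  rw [h1, ← Finset.mul_sum]
  have h2 : ∑ g ∈ Finset.range k, (ec k s (g + 1) *
      U r (θ + 2 * Real.pi * ((g + 1 : ℕ) : ℝ) / (k : ℝ))) =
      ∑ g ∈ Finset.range k, ec k s g * U r (θ + 2 * Real.pi * (g : ℝ) / (k : ℝ)) := by
    have h3 := Finset.sum_range_succ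
      (fun g => ec k s g * U r (θ + 2 * Real.pi * (g : ℝ) / (k : ℝ))) k
    have h4 := Finset.sum_range_succ'
      (fun g => ec k s g * U r (θ + 2 * Real.pi * (g : ℝ) / (k : ℝ))) k
    have h5 : ec k s k * U r (θ + 2 * Real.pi * (k : ℝ) / (k : ℝ)) =
        ec k s 0 * U r (θ + 2 * Real.pi * ((0 : ℕ) : ℝ) / (k : ℝ)) := by
      rw [ec_k k s hk, ec_zero]
      have h6 : θ + 2 * Real.pi * (k : ℝ) / (k : ℝ) = θ + 2 * Real.pi := by field_simp
      have h7 : θ + 2 * Real.pi * ((0 : ℕ) : ℝ) / (k : ℝ) = θ := by simp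
      rw [h6, h7, hU]
    rw [h4, h5] at h3
    exact add_right_cancel h3
  rw [h2]
  unfold cmp
  ring

theorem orth (k : ℕ) (hk : 0 < k) (g h : ℕ) (hg : g < k) (hh : h < k) :
    ∑ s ∈ Finset.range k, ec k s g * (starRingEnd ℂ) (ec k s h) = if g = h then (k : ℂ) else 0 := by
  have hk' : (k : ℝ) ≠ 0 := by positivity
  obtain ⟨w, hw⟩ : ∃ w, w = Complex.exp (((-(2 * Real.pi * ((g : ℝ) - (h : ℝ)) / (k : ℝ)) : ℝ) : ℂ) *
    Complex.I) := ⟨_, rfl⟩
  have h1 : ∀ s, ec k s g * (starRingEnd ℂ) (ec k s h) = w ^ s := by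
    intro s
    unfold ec
    rw [← Complex.exp_conj, ← Complex.exp_add, hw, ← Complex.exp_nat_mul]
    congr 1
    simp only [map_mul, Complex.conj_ofReal, Complex.conj_I]
    push_cast
    ring
  simp_rw [h1]
  split_ifs with hgh
  · subst hgh
    have : w = 1 := by rw [hw]; simp
    rw [this]
    simp
  · have hw1 : w ≠ 1 := by
      rw [hw, Ne, Complex.exp_eq_one_iff]
      rintro ⟨m, hm⟩
      have h2 : (-(2 * Real.pi * ((g : ℝ) - (h : ℝ)) / (k : ℝ)) : ℝ) = m * (2 * Real.pi) := by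
        have h3 : (((-(2 * Real.pi * ((g : ℝ) - (h : ℝ)) / (k : ℝ)) : ℝ) : ℂ)) =
            ((m * (2 * Real.pi) : ℝ) : ℂ) := by
          have h4 : ((m : ℂ) * (2 * Real.pi * Complex.I)) =
              ((m * (2 * Real.pi) : ℝ) : ℂ) * Complex.I := by
            push_cast
            ring
          rw [h4] at hm
          exact mul_right_cancel₀ Complex.I_ne_zero hm
        exact_mod_cast h3
      have hpi := Real.pi_pos
      have h5 : (h : ℝ) - (g : ℝ) = m * k := by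
        have h6 : -(2 * Real.pi * ((g : ℝ) - (h : ℝ)) / (k : ℝ)) =
            (2 * Real.pi) * (((h : ℝ) - g) / k) := by ring
        rw [h6, mul_comm (m : ℝ)] at h2
        have h7 := mul_left_cancel₀ (by positivity) h2
        rw [div_eq_iff hk'] at h7
        exact h7
      have h6 : (h : ℤ) - (g : ℤ) = m * k := by exact_mod_cast h5
      have h7 : m = 0 := by
        by_contra hm0
        rcases lt_or_gt_of_ne hm0 with h8 | h8
        · have : m * (k : ℤ) ≤ -k := by nlinarith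
          omega
        · have : (k : ℤ) ≤ m * k := by nlinarith
          omega
      subst h7
      apply hgh
      omega
    have hwk : w ^ k = 1 := by
      rw [hw, ← Complex.exp_nat_mul, Complex.exp_eq_one_iff]
      refine ⟨(h : ℤ) - g, ?_⟩
      have : ((k : ℂ) * (((-(2 * Real.pi * ((g : ℝ) - (h : ℝ)) / (k : ℝ)) : ℝ) : ℂ) * Complex.I)) =
          (((k : ℝ) * (-(2 * Real.pi * ((g : ℝ) - (h : ℝ)) / (k : ℝ))) : ℝ) : ℂ) * Complex.I := by
        push_cast
        ring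
      rw [this]
      have h3 : (k : ℝ) * (-(2 * Real.pi * ((g : ℝ) - (h : ℝ)) / (k : ℝ))) =
          ((h : ℝ) - g) * (2 * Real.pi) := by
        field_simp
        ring
      rw [h3]
      push_cast
      ring
    rw [geom_sum_eq hw1, hwk]
    simp

theorem pars (k : ℕ) (hk : 0 < k) (a : ℕ → ℂ) :
    ∑ s ∈ Finset.range k, ‖(1 / (k : ℂ)) * ∑ g ∈ Finset.range k, ec k s g * a g‖ ^ 2 =
      (1 / (k : ℝ)) * ∑ g ∈ Finset.range k, ‖a g‖ ^ 2 := by
  have hk' : (k : ℂ) ≠ 0 := by exact_mod_cast hk.ne'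
  have h1 : ∀ z : ℂ, ((‖z‖ ^ 2 : ℝ) : ℂ) = z * (starRingEnd ℂ) z := by
    intro z
    rw [Complex.mul_conj, Complex.normSq_eq_norm_sq]
  have h2 : ((∑ s ∈ Finset.range k,
      ‖(1 / (k : ℂ)) * ∑ g ∈ Finset.range k, ec k s g * a g‖ ^ 2 : ℝ) : ℂ) =
      (((1 / (k : ℝ)) * ∑ g ∈ Finset.range k, ‖a g‖ ^ 2 : ℝ) : ℂ) := by
    rw [Complex.ofReal_sum]
    simp_rw [h1]
    rw [Complex.ofReal_mul, Complex.ofReal_sum]
    simp_rw [h1]
    have h3 : ∀ s, (1 / (k : ℂ)) * (∑ g ∈ Finset.range k, ec k s g * a g) *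
        (starRingEnd ℂ) ((1 / (k : ℂ)) * ∑ g ∈ Finset.range k, ec k s g * a g) =
        (1 / (k : ℂ)) ^ 2 * ∑ g ∈ Finset.range k, ∑ h ∈ Finset.range k,
          (ec k s g * (starRingEnd ℂ) (ec k s h)) * (a g * (starRingEnd ℂ) (a h)) := by
      intro s
      rw [map_mul, map_sum]
      have h4 : (starRingEnd ℂ) (1 / (k : ℂ)) = 1 / (k : ℂ) := by simp
      rw [h4]
      have h5 : (∑ g ∈ Finset.range k, ec k s g * a g) *
          (∑ h ∈ Finset.range k, (starRingEnd ℂ) (ec k s h * a h)) =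
          ∑ g ∈ Finset.range k, ∑ h ∈ Finset.range k,
          (ec k s g * (starRingEnd ℂ) (ec k s h)) * (a g * (starRingEnd ℂ) (a h)) := by
        rw [Finset.sum_mul_sum]
        refine Finset.sum_congr rfl fun g _ => Finset.sum_congr rfl fun h _ => ?_
        rw [map_mul]
        ring
      rw [← h5]
      ring
    simp_rw [h3]
    rw [← Finset.mul_sum, Finset.sum_comm]
    have h6 : ∀ g ∈ Finset.range k, ∑ s ∈ Finset.range k, ∑ h ∈ Finset.range k,
        (ec k s g * (starRingEnd ℂ) (ec k s h)) * (a g * (starRingEnd ℂ) (a h)) =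
        (k : ℂ) * (a g * (starRingEnd ℂ) (a g)) := by
      intro g hg
      rw [Finset.sum_comm]
      have h7 : ∀ h ∈ Finset.range k, ∑ s ∈ Finset.range k,
          (ec k s g * (starRingEnd ℂ) (ec k s h)) * (a g * (starRingEnd ℂ) (a h)) =
          if g = h then (k : ℂ) * (a g * (starRingEnd ℂ) (a h)) else 0 := by
        intro h hh
        rw [← Finset.sum_mul, orth k hk g h (Finset.mem_range.1 hg) (Finset.mem_range.1 hh)]
        split_ifs <;> simp
      rw [Finset.sum_congr rfl h7, Finset.sum_ite_eq, if_pos hg]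
    rw [Finset.sum_congr rfl h6, ← Finset.mul_sum]
    push_cast
    field_simp
  exact_mod_cast h2

theorem shift_int {F : Type} [NormedAddCommGroup F] [NormedSpace ℝ F] (f : ℝ → F)
    (hf : ∀ θ, f (θ + 2 * Real.pi) = f θ) (c : ℝ) :
    ∫ θ in (-Real.pi)..Real.pi, f (θ + c) = ∫ θ in (-Real.pi)..Real.pi, f θ := by
  rw [intervalIntegral.integral_comp_add_right]
  have hp : Function.Periodic f (2 * Real.pi) := hf
  have h1 := hp.intervalIntegral_add_eq (-Real.pi + c) (-Real.pi)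
  have h2 : -Real.pi + c + 2 * Real.pi = Real.pi + c := by ring
  have h3 : -Real.pi + 2 * Real.pi = Real.pi := by ring
  rw [h2, h3] at h1
  exact h1

theorem pars_int (k : ℕ) (hk : 0 < k) (U : ℝ → ℝ → ℂ) (hc : Continuous (Function.uncurry U))
    (hU : ∀ r θ, U r (θ + 2 * Real.pi) = U r θ) (r : ℝ) :
    ∑ s ∈ Finset.range k, ∫ θ in (-Real.pi)..Real.pi, ‖cmp k U s r θ‖ ^ 2 =
      ∫ θ in (-Real.pi)..Real.pi, ‖U r θ‖ ^ 2 := by
  have hk' : (k : ℝ) ≠ 0 := by positivity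
  have hUc : Continuous (U r) := hc.comp (by fun_prop : Continuous fun θ => (r, θ))
  rw [← intervalIntegral.integral_finsetSum]
  · have h1 : ∀ θ, ∑ s ∈ Finset.range k, ‖cmp k U s r θ‖ ^ 2 =
        (1 / (k : ℝ)) * ∑ g ∈ Finset.range k, ‖U r (θ + 2 * Real.pi * (g : ℝ) / (k : ℝ))‖ ^ 2 :=
      fun θ => pars k hk fun g => U r (θ + 2 * Real.pi * (g : ℝ) / (k : ℝ))
    simp_rw [h1]
    rw [intervalIntegral.integral_const_mul, intervalIntegral.integral_finsetSum]
    · have h2 : ∀ g ∈ Finset.range k, ∫ θ in (-Real.pi)..Real.pi,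
          ‖U r (θ + 2 * Real.pi * (g : ℝ) / (k : ℝ))‖ ^ 2 =
          ∫ θ in (-Real.pi)..Real.pi, ‖U r θ‖ ^ 2 := by
        intro g _
        exact shift_int (fun θ => ‖U r θ‖ ^ 2) (fun θ => by simp only [hU]) _
      rw [Finset.sum_congr rfl h2, Finset.sum_const, Finset.card_range, nsmul_eq_mul]
      field_simp
    · intro g _
      refine Continuous.intervalIntegrable ?_ _ _
      exact ((hUc.comp (by fun_prop : Continuous fun θ : ℝ =>
        θ + 2 * Real.pi * (g : ℝ) / (k : ℝ))).norm.pow 2)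
  · intro s _
    refine Continuous.intervalIntegrable ?_ _ _
    exact (((cmp_cont k U hc s).comp (by fun_prop : Continuous fun θ : ℝ => (r, θ))).norm.pow 2)

theorem inv_iter (k : ℕ) (Ω : Set E2) (hI : Inv k Ω) (r : ℝ) (m : ℕ) : ∀ θ,
    pt r θ ∈ Ω → pt r (θ + 2 * Real.pi * (m : ℝ) / (k : ℝ)) ∈ Ω := by
  induction m with
  | zero => intro θ h; simpa using h
  | succ m ih =>
    intro θ h
    have h1 := hI r _ (ih θ h)
    have h2 : θ + 2 * Real.pi * (m : ℝ) / (k : ℝ) + 2 * Real.pi / k =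
        θ + 2 * Real.pi * ((m + 1 : ℕ) : ℝ) / (k : ℝ) := by
      push_cast
      ring
    rwa [h2] at h1

theorem pt_per (r θ : ℝ) : pt r (θ + 2 * Real.pi) = pt r θ := by
  simp [pt]

theorem inv_back (k : ℕ) (hk : 0 < k) (Ω : Set E2) (hI : Inv k Ω) (r θ : ℝ) (g : ℕ) (hg : g < k)
    (h : pt r (θ + 2 * Real.pi * (g : ℝ) / (k : ℝ)) ∈ Ω) : pt r θ ∈ Ω := by
  have hk' : (k : ℝ) ≠ 0 := by positivity
  have h1 := inv_iter k Ω hI r (k - g) _ h
  have h2 : θ + 2 * Real.pi * (g : ℝ) / (k : ℝ) + 2 * Real.pi * ((k - g : ℕ) : ℝ) / (k : ℝ) =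
      θ + 2 * Real.pi := by
    rw [Nat.cast_sub hg.le]
    field_simp
    ring
  rwa [h2, pt_per] at h1

theorem pf_DFA : T_DFA := by
  intro k Ω U Ur Ut hk hΩ hI hP
  have hk' : (k : ℝ) ≠ 0 := by positivity
  refine ⟨cmp k U, cmp k Ur, cmp k Ut, ?_, ?_, ?_, ?_, ?_⟩
  · intro s
    refine ⟨⟨cmp_cont k U hP.c0 s, cmp_cont k Ur hP.cr s, cmp_cont k Ut hP.ct s, ?_, ?_,
      cmp_per k U hP.per s, cmp_per k Ur hP.perr s, cmp_per k Ut hP.pert s, ?_, ?_, ?_⟩,
      cmp_qp k hk U hP.per s⟩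
    · intro r θ
      have h1 : HasDerivAt (fun x => ∑ g ∈ Finset.range k,
          ec k s g * U x (θ + 2 * Real.pi * (g : ℝ) / (k : ℝ)))
          (∑ g ∈ Finset.range k, ec k s g * Ur r (θ + 2 * Real.pi * (g : ℝ) / (k : ℝ))) r :=
        HasDerivAt.fun_sum fun g _ => (hP.dr r _).const_mul (ec k s g)
      exact h1.const_mul (1 / (k : ℂ))
    · intro r θ
      have h1 : HasDerivAt (fun x => ∑ g ∈ Finset.range k,
          ec k s g * U r (x + 2 * Real.pi * (g : ℝ) / (k : ℝ)))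
          (∑ g ∈ Finset.range k, ec k s g * Ut r (θ + 2 * Real.pi * (g : ℝ) / (k : ℝ))) θ :=
        HasDerivAt.fun_sum fun g _ =>
          ((hP.dt r (θ + 2 * Real.pi * (g : ℝ) / (k : ℝ))).comp_add_const
            θ (2 * Real.pi * (g : ℝ) / (k : ℝ))).const_mul (ec k s g)
      exact h1.const_mul (1 / (k : ℂ))
    · obtain ⟨R, hR, hR2⟩ := hP.bd
      refine ⟨R, hR, fun r θ hr => ?_⟩
      unfold cmp
      rw [Finset.sum_eq_zero, mul_zero]
      intro g _
      rw [hR2 r _ hr, mul_zero]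
    · intro θ θ'
      unfold cmp
      congr 1
      refine Finset.sum_congr rfl fun g _ => ?_
      rw [hP.zero _ (θ' + 2 * Real.pi * (g : ℝ) / (k : ℝ))]
    · intro θ
      have h1 : Function.support (fun r => cmp k U s r θ) ⊆
          ⋃ g ∈ Finset.range k,
            tsupport (fun r => U r (θ + 2 * Real.pi * (g : ℝ) / (k : ℝ))) := by
        intro r hr
        by_contra hcon
        apply hr
        change cmp k U s r θ = 0
        unfold cmp
        rw [Finset.sum_eq_zero, mul_zero]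
        intro g hg
        have h2 : r ∉ tsupport (fun r => U r (θ + 2 * Real.pi * (g : ℝ) / (k : ℝ))) := by
          intro h3
          exact hcon (mem_iUnion₂.2 ⟨g, hg, h3⟩)
        have h3 := image_eq_zero_of_notMem_tsupport h2
        beta_reduce at h3
        rw [h3, mul_zero]
      have h2 : IsClosed (⋃ g ∈ Finset.range k,
          tsupport (fun r => U r (θ + 2 * Real.pi * (g : ℝ) / (k : ℝ)))) :=
        isClosed_biUnion_finset fun g _ => isClosed_tsupport _
      refine (closure_minimal h1 h2).trans ?_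
      intro r hr
      obtain ⟨g, hg, h3⟩ := mem_iUnion₂.1 hr
      exact inv_back k hk Ω hI r θ g (Finset.mem_range.1 hg) (hP.supp _ h3)
  · intro r
    have hUc : Continuous (U r) := hP.c0.comp (by fun_prop : Continuous fun θ => (r, θ))
    have h1 : ∀ θ, cmp k U 0 r θ = (1 / (k : ℂ)) * ∑ g ∈ Finset.range k,
        U r (θ + 2 * Real.pi * (g : ℝ) / (k : ℝ)) := by
      intro θ
      unfold cmp
      congr 1
      refine Finset.sum_congr rfl fun g _ => ?_
      have : ec k 0 g = 1 := by simp [ec]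
      rw [this, one_mul]
    simp_rw [h1]
    rw [intervalIntegral.integral_const_mul, intervalIntegral.integral_finsetSum]
    · have h2 : ∀ g ∈ Finset.range k, ∫ θ in (-Real.pi)..Real.pi,
          U r (θ + 2 * Real.pi * (g : ℝ) / (k : ℝ)) = ∫ θ in (-Real.pi)..Real.pi, U r θ := by
        intro g _
        exact shift_int (fun θ => U r θ) (fun θ => hP.per r θ) _
      rw [Finset.sum_congr rfl h2, Finset.sum_const, Finset.card_range, nsmul_eq_mul]
      have hkc : (k : ℂ) ≠ 0 := by exact_mod_cast hk.ne'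
      field_simp
    · intro g _
      refine Continuous.intervalIntegrable ?_ _ _
      exact (hUc.comp (by fun_prop : Continuous fun θ : ℝ =>
        θ + 2 * Real.pi * (g : ℝ) / (k : ℝ)))
  · exact fun r => pars_int k hk U hP.c0 hP.per r
  · exact fun r => pars_int k hk Ur hP.cr hP.perr r
  · exact fun r => pars_int k hk Ut hP.ct hP.pert r

end Pool.Agent.H33.RK
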