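import Pool.Agent.H92.RK.Targets

set_option autoImplicit false

/-!
Module NEA of the board `rk_modules`.
-/

open MeasureTheory Set
open scoped ENNReal

namespace Pool.Agent.H33.RK

open Pool.Agent.H92.RK

theorem norm_exp_qp (k : ℕ) (s : ℤ) :
    ‖Complex.exp (((2 * Real.pi * (s : ℝ) / (k : ℝ) : ℝ) : ℂ) * Complex.I)‖ = 1 :=
  Complex.norm_exp_ofReal_mul_I _

theorem pf_NEA (hFOU : T_FOU) (hWIR : T_WIR) (hCSN : T_CSN) : T_NEA := by
  intro k s τ x g g' ρ hk hs hτ hτ2 hx hx2 hg hqp hρ hρ1 hρ2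
  have hcont : Continuous g := continuous_iff_continuousAt.2 fun t => (hg.1 t).continuousAt
  have hpi := Real.pi_pos
  have hkpos : 0 < k := by omega
  have hs0 : s ≠ 0 := by rintro rfl; exact hs (dvd_zero _)
  have hnz : ∀ m : ℤ, (k : ℤ) ∣ m - s → m ≠ 0 := by
    rintro m hm rfl
    apply hs
    have := (dvd_neg (a := (k : ℤ))).2 hm
    simpa using this
  have hsq1 : ∀ m : ℤ, m ≠ 0 → (1 : ℝ) ≤ (m : ℝ) ^ 2 := by
    intro m hm
    have h1 : (1 : ℤ) ≤ m ^ 2 := by
      have := Int.one_le_abs hm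
      nlinarith [sq_abs m, abs_nonneg m]
    exact_mod_cast h1
  obtain ⟨n, hn⟩ : ∃ n, n = ∫ θ in (-Real.pi)..Real.pi, ‖g θ‖ ^ 2 := ⟨_, rfl⟩
  obtain ⟨e, he⟩ : ∃ e, e = ∫ θ in (-Real.pi)..Real.pi, ‖g' θ‖ ^ 2 := ⟨_, rfl⟩
  obtain ⟨a, ha⟩ : ∃ a, a = ∫ θ in (-Real.pi)..Real.pi, ‖g θ‖ := ⟨_, rfl⟩
  obtain ⟨q, hq⟩ : ∃ q, q = a ^ 2 / (2 * Real.pi) := ⟨_, rfl⟩
  have hqn : 0 ≤ q := by rw [hq]; positivity
  have han : 0 ≤ a := by
    rw [ha]
    exact intervalIntegral.integral_nonneg (by linarith) fun _ _ => norm_nonneg _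
  -- first claim
  have h1 : n ≤ e := by
    have h2 := hFOU k s s 1 g g' hkpos hg hqp (by simp) (fun m hm _ => hsq1 m (hnz m hm))
    rw [← hn, ← he] at h2
    have h3 := hsq1 s hs0
    have h4 : 0 ≤ ((s : ℝ) ^ 2 - 1) / (2 * Real.pi) *
        ‖∫ θ in (-Real.pi)..Real.pi, g θ * Complex.exp (-((s : ℂ) * θ * Complex.I))‖ ^ 2 := by
      have : 0 ≤ (s : ℝ) ^ 2 - 1 := by linarith
      positivity
    have h5 : (1 - (s : ℝ) ^ 2) / (2 * Real.pi) = -(((s : ℝ) ^ 2 - 1) / (2 * Real.pi)) := by ring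
    rw [h5] at h2
    linarith
  -- second claim
  have h2 : 0 ≤ n - q → 45 / 2 * (n - q) ≤ e - n := by
    intro hnq
    by_cases hc : ∃ n₀ : ℤ, (n₀ = 1 ∨ n₀ = -1) ∧ (k : ℤ) ∣ n₀ - s
    · obtain ⟨n₀, hn₀, hdv⟩ := hc
      have h3 := hFOU k s n₀ 25 g g' hkpos hg hqp hdv (by
        intro m hm hne
        have h4 : (k : ℤ) ∣ m - n₀ := by
          have := dvd_sub hm hdv
          have h5 : m - s - (n₀ - s) = m - n₀ := by ring
          rwa [h5] at this
        obtain ⟨d, hd⟩ := h4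
        have hd0 : d ≠ 0 := by
          rintro rfl
          apply hne
          linarith
        have hk' : (6 : ℤ) ≤ k := by exact_mod_cast hk
        have h5 : (25 : ℤ) ≤ m ^ 2 := by
          rcases lt_or_gt_of_ne hd0 with h | h
          · have : (k : ℤ) * d ≤ -6 := by nlinarith
            have h6 : m ≤ -5 := by rcases hn₀ with rfl | rfl <;> linarith
            nlinarith
          · have : 6 ≤ (k : ℤ) * d := by nlinarith
            have h6 : 5 ≤ m := by rcases hn₀ with rfl | rfl <;> linarith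
            nlinarith
        exact_mod_cast h5)
      rw [← hn, ← he] at h3
      have h4 : ‖∫ θ in (-Real.pi)..Real.pi,
          g θ * Complex.exp (-((n₀ : ℂ) * θ * Complex.I))‖ ≤ a := by
        rw [ha]
        refine (intervalIntegral.norm_integral_le_integral_norm (by linarith)).trans_eq ?_
        refine intervalIntegral.integral_congr fun θ _ => ?_
        have h5 : -((n₀ : ℂ) * θ * Complex.I) = ((-(n₀ * θ) : ℝ) : ℂ) * Complex.I := by
          push_cast
          ring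
        simp only [norm_mul, h5, Complex.norm_exp_ofReal_mul_I, mul_one]
      have h5 : (25 - (n₀ : ℝ) ^ 2) = 24 := by
        rcases hn₀ with rfl | rfl <;> norm_num
      rw [h5] at h3
      have h6 : ‖∫ θ in (-Real.pi)..Real.pi,
          g θ * Complex.exp (-((n₀ : ℂ) * θ * Complex.I))‖ ^ 2 ≤ a ^ 2 :=
        pow_le_pow_left₀ (norm_nonneg _) h4 2
      have h7 : 24 / (2 * Real.pi) * ‖∫ θ in (-Real.pi)..Real.pi,
          g θ * Complex.exp (-((n₀ : ℂ) * θ * Complex.I))‖ ^ 2 ≤ 24 * q := by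
        rw [hq]
        have : 24 * (a ^ 2 / (2 * Real.pi)) = 24 / (2 * Real.pi) * a ^ 2 := by ring
        rw [this]
        exact mul_le_mul_of_nonneg_left h6 (by positivity)
      linarith
    · push Not at hc
      have hs2 : (4 : ℝ) ≤ (s : ℝ) ^ 2 ∧ ∀ m : ℤ, (k : ℤ) ∣ m - s → m ≠ s → (4 : ℝ) ≤ (m : ℝ) ^ 2 := by
        have key : ∀ m : ℤ, (k : ℤ) ∣ m - s → (4 : ℝ) ≤ (m : ℝ) ^ 2 := by
          intro m hm
          have h3 := hnz m hm
          have h4 : m ≠ 1 := fun h => hc 1 (Or.inl rfl) (h ▸ hm)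
          have h5 : m ≠ -1 := fun h => hc (-1) (Or.inr rfl) (h ▸ hm)
          have h6 : (4 : ℤ) ≤ m ^ 2 := by
            have : 2 ≤ m ∨ m ≤ -2 := by omega
            rcases this with h | h <;> nlinarith
          exact_mod_cast h6
        exact ⟨key s (by simp), fun m hm _ => key m hm⟩
      have h3 := hFOU k s s 4 g g' hkpos hg hqp (by simp) hs2.2
      rw [← hn, ← he] at h3
      have h4 : 0 ≤ ((s : ℝ) ^ 2 - 4) / (2 * Real.pi) *
          ‖∫ θ in (-Real.pi)..Real.pi, g θ * Complex.exp (-((s : ℂ) * θ * Complex.I))‖ ^ 2 := by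
        have : 0 ≤ (s : ℝ) ^ 2 - 4 := by linarith [hs2.1]
        positivity
      have h5 : (4 - (s : ℝ) ^ 2) / (2 * Real.pi) = -(((s : ℝ) ^ 2 - 4) / (2 * Real.pi)) := by ring
      rw [h5] at h3
      have h6 := hWIR k g g' hkpos hg (by
        intro θ
        rw [hqp θ, norm_mul, norm_exp_qp, one_mul])
      rw [← hn, ← he, ← ha, ← hq] at h6
      have h7 : (36 : ℝ) ≤ (k : ℝ) ^ 2 := by
        have : (6 : ℝ) ≤ k := by exact_mod_cast hk
        nlinarith
      have h8 : 36 * (n - q) ≤ (k : ℝ) ^ 2 * (n - q) := mul_le_mul_of_nonneg_right h7 hnq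
      linarith
  have h3 : 4 * τ * n ≤ (e - n) / x + 4 * τ * q := by
    rcases le_total 0 (n - q) with h | h
    · have h4 := h2 h
      have h5 : (e - n) / (3 / 2) ≤ (e - n) / x :=
        div_le_div_of_nonneg_left (by linarith) hx hx2
      have h6 : 4 * τ * (n - q) ≤ 15 * (n - q) := mul_le_mul_of_nonneg_right (by linarith) h
      have h7 : (e - n) / (3 / 2) = 2 / 3 * (e - n) := by ring
      nlinarith
    · have h5 : 0 ≤ (e - n) / x := div_nonneg (by linarith) hx.le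
      nlinarith
  rw [← hn, ← he]
  refine ⟨h1, ?_⟩
  have h4 := hCSN (fun θ => ‖g θ‖) ρ hcont.norm (fun _ => norm_nonneg _) hρ hρ1 (by
    intro θ hθ
    simp [hρ2 θ hθ])
  rw [← ha, ← hq] at h4
  have h5 : ∫⁻ θ in Ioo (-Real.pi) Real.pi, ENNReal.ofReal (4 * τ) / ρ θ *
      ENNReal.ofReal (‖g θ‖ ^ 2) = ENNReal.ofReal (4 * τ) *
      ∫⁻ θ in Ioo (-Real.pi) Real.pi, ENNReal.ofReal (‖g θ‖ ^ 2) / ρ θ := by
    rw [← lintegral_const_mul' _ _ ENNReal.ofReal_ne_top]
    refine lintegral_congr fun θ => ?_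
    rw [ENNReal.div_eq_inv_mul, ENNReal.div_eq_inv_mul]
    ring
  rw [h5]
  calc ENNReal.ofReal (4 * τ * n) ≤ ENNReal.ofReal ((e - n) / x + 4 * τ * q) :=
        ENNReal.ofReal_le_ofReal h3
    _ = ENNReal.ofReal ((e - n) / x) + ENNReal.ofReal (4 * τ) * ENNReal.ofReal q := by
        rw [ENNReal.ofReal_add (div_nonneg (by linarith) hx.le) (by positivity),
          ENNReal.ofReal_mul (by positivity)]
    _ ≤ _ := by gcongr

end Pool.Agent.H33.RK
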